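import Pool.Agent.Y831.RC2.Quarter
import Pool.Agent.Y831.RC2.Count2

set_option autoImplicit false

namespace Pool.Agent.Results.MP_ff81b6_nt.ExplicitGapFrequency

open Finset Classical

/-- `f(x) = log x (log log x)^2 log log log log x / (log log log x)^2` -/
noncomputable def f (x : ℝ) : ℝ :=
  Real.log x * (Real.log (Real.log x)) ^ 2 * Real.log (Real.log (Real.log (Real.log x))) /
    (Real.log (Real.log (Real.log x))) ^ 2

/-- `Nat.nth Nat.Prime n` is the prime with index `n` (the primes are numbered from `0`); the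
indices `n` of primes `p_{n+1} ≤ x` satisfy `n < ⌊x⌋`. -/
theorem result : ∀ ε : ℝ, 0 < ε → ∃ x₀ : ℝ, ∀ x : ℝ, x₀ ≤ x → ∀ H : ℝ, Real.log x ≤ H →
    H ≤ (1 / 4 - ε) * f x →
    x ^ (1 - (4 + ε) * H / f x) ≤
      (((range ⌊x⌋₊).filter (fun n : ℕ => (Nat.nth Nat.Prime (n + 1) : ℝ) ≤ x ∧
        H ≤ (Nat.nth Nat.Prime (n + 1) : ℝ) - Nat.nth Nat.Prime n)).card : ℝ) := by
  intro ε hε
  have h := Pool.Agent.Y831.RC.fin_count2 (1 / 4) (by norm_num) (by norm_num)
    Pool.Agent.Y831.RC.run_quarter ε hε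
  norm_num at h
  exact h

end Pool.Agent.Results.MP_ff81b6_nt.ExplicitGapFrequency
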