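import Pool.Agent.Y831.RC4.AbundT

set_option autoImplicit false

namespace Pool.Agent.Results.MP_ff81b6_nt.FrequencyOfLongRuns

/-- with `θ = log T / log log X`,
`len X T = θ / (2 log₃ X / log₂ X + log (1 / θ)) · log X log₂ X log₄ X / log₃ X` -/
noncomputable def len (X T : ℝ) : ℝ :=
  (Real.log T / Real.log (Real.log X)) /
    (2 * Real.log (Real.log (Real.log X)) / Real.log (Real.log X) -
      Real.log (Real.log T / Real.log (Real.log X))) *
    (Real.log X * Real.log (Real.log X) * Real.log (Real.log (Real.log (Real.log X))) /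
      Real.log (Real.log (Real.log X)))

/-- the integers `n` with `M ≤ n` and `n + F ≤ M + X` such that each of the integers
`n + k`, `1 ≤ k ≤ F`, has a prime factor `p ≤ y` -/
def Starts (M X F y : ℝ) : Set ℤ :=
  {n : ℤ | M ≤ n ∧ (n : ℝ) + F ≤ M + X ∧
    ∀ k : ℕ, 1 ≤ k → (k : ℝ) ≤ F → ∃ p : ℕ, p.Prime ∧ (p : ℝ) ≤ y ∧ (p : ℤ) ∣ n + k}

theorem result : ∀ c δ η : ℝ, 0 < c → c < 1 / 2 → 0 < δ → 0 < η →
    ∃ X₀ : ℝ, ∀ X : ℝ, X₀ ≤ X → ∀ T : ℝ, (Real.log X) ^ η ≤ T → T ≤ Real.log X → ∀ M : ℝ,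
      X * Real.exp (-T) ≤ ((Starts M X (c * len X T) (X ^ δ)).ncard : ℝ) := by
  intro c δ η hc hc2 hδ hη
  rcases le_or_gt η 1 with h | h
  · exact Pool.Agent.Y831.RC.abundT c δ η hc hc2 hδ hη h
  · refine ⟨Real.exp 2, fun X hX T hT1 hT2 => ?_⟩
    exfalso
    have h1 : 2 ≤ Real.log X := by
      rw [← Real.log_exp 2]
      exact Real.log_le_log (Real.exp_pos _) hX
    have h2 : Real.log X < (Real.log X) ^ η := by
      calc Real.log X = (Real.log X) ^ (1 : ℝ) := (Real.rpow_one _).symm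
        _ < (Real.log X) ^ η := Real.rpow_lt_rpow_of_exponent_lt (by linarith) h
    linarith

end Pool.Agent.Results.MP_ff81b6_nt.FrequencyOfLongRuns
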