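import Pool.Agent.Y898.MTC

set_option autoImplicit false

/-!
# The Milliken-Taylor theorem for consecutive prime gaps at every scale, next to a record gap

Let `f(x) = log x (log₂ x)² log₄ x / (log₃ x)²`, the size of the largest gaps between consecutive
primes that are known to occur up to `x`.  Let the `k`-tuples of integers be coloured with `ρ`
colours.  For every `H` with `1 ≤ H ≤ c f(x)` there are at least `x^(7/8)` clusters of `m + 1`
consecutive primes up to `x` that follow a gap of size at least `c f(x)`, whose gaps `d_1, …, d_m`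
are between `H` and `C H` and for which ALL the `k`-tuples

`(∑_(i ∈ F_1) d_i, …, ∑_(i ∈ F_k) d_i)`, `∅ ≠ F_1 < F_2 < … < F_k ⊆ {1, …, m}`,

have the same colour.  The constants `c`, `C` and `x₀` depend only on `k`, `m` and `ρ`.  With
`H = c f(x)` all `m + 1` gaps have record size.

For `k = 1` this is the theorem of Folkman, Rado and Sanders (all sums of the gaps have the same
colour), for intervals `F_i` a theorem of Ramsey type for differences of primes.  For example, for
every finite colouring of the rational numbers there are `x^(7/8)` chains of `m` consecutive record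
gaps up to `x` such that all the quotients `∑_(F_2) d_i / ∑_(F_1) d_i`, `F_1 < F_2`, have the same
colour, and all the products `(∑_(F_1) d_i) (∑_(F_2) d_i)` have the same colour.

Method.  The infinite dimensional finite unions theorem (`W68.Mil`, helper68), compactness
(`Y898.MTC.mt_col`), and the record sieve of helper101 (`TH101.RG.core`) in the form of
`Y898.Engine2`, a variant of the engine of helper709.
-/

namespace Pool.Agent.Results.MP_ff81b6_nt.MillikenTaylorForGaps

/-- The record scale `f(x) = log x (log₂ x)² log₄ x / (log₃ x)²` (iterated natural logarithms). -/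
noncomputable def f (x : ℝ) : ℝ :=
  Real.log x * (Real.log (Real.log x)) ^ 2 * Real.log (Real.log (Real.log (Real.log x))) /
    (Real.log (Real.log (Real.log x))) ^ 2

/-- The `i`-th prime, numbered from `p 0 = 2`. -/
noncomputable def p (i : ℕ) : ℕ := Nat.nth Nat.Prime i

/-- The gap after the `i`-th prime. -/
noncomputable def d (i : ℕ) : ℤ := (p (i + 1) : ℤ) - p i

/-- The primes `p_n, …, p_(n+k)` are at most `x`, the `k` gaps between them are at least `H` and at
most `C H`, and the gap before `p_n` is at least `c f(x)`. -/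
def Cluster (c C x H : ℝ) (k n : ℕ) : Prop :=
  0 < n ∧ (p (n + k) : ℝ) ≤ x ∧ c * f x ≤ (d (n - 1) : ℝ) ∧
    ∀ i < k, H ≤ (d (n + i) : ℝ) ∧ (d (n + i) : ℝ) ≤ C * H

theorem cluster_of {c C x H : ℝ} {k n : ℕ} {Q : (Fin k → ℤ) → Prop}
    (h : n ∈ Pool.Agent.Y898.PolyGaps.Cl c C x H k Q) :
    Cluster c C x H k n ∧ Q (fun l => d (n + l)) := by
  obtain ⟨h1, h2, h3, h4, h5⟩ := h
  refine ⟨⟨h1, h2, ?_, fun i hi => ?_⟩, h5⟩
  · unfold d p
    rw [Nat.sub_add_cancel h1]
    push_cast
    exact h3
  · unfold d p
    push_cast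
    exact h4 i hi

theorem finite_of {x : ℝ} {k : ℕ} {S : Set ℕ} (h : ∀ n ∈ S, (p (n + k) : ℝ) ≤ x) : S.Finite := by
  refine (Set.finite_Iic ⌊x⌋₊).subset ?_
  intro n hn
  refine Nat.le_floor (le_trans ?_ (h n hn))
  have h2 : n + k ≤ Nat.nth Nat.Prime (n + k) :=
    (Nat.nth_strictMono Nat.infinite_setOfPred_prime).le_apply
  exact_mod_cast (Nat.le_add_right n k).trans h2

/-- **The Milliken-Taylor theorem for consecutive prime gaps next to a record gap.**  For all `k`, `m`
and `ρ` there are `c > 0`, `C` and `x₀` such that for all `x ≥ x₀`, all `H` with `1 ≤ H ≤ c f(x)` and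
every colouring `χ` of the `k`-tuples of integers with `ρ` colours there are at least `x^(7/8)` blocks
`p_n, …, p_(n+m)` of consecutive primes up to `x`, with all `m` gaps between `H` and `C H` and the gap
before `p_n` at least `c f(x)`, such that all the `k`-tuples of the sums of the gaps over nonempty
sets `I_1 < … < I_k` of indices have the same colour. -/
theorem result (k m ρ : ℕ) : ∃ c C : ℝ, 0 < c ∧
    ∃ x₀ : ℝ, ∀ x : ℝ, x₀ ≤ x → ∀ H : ℝ, 1 ≤ H → H ≤ c * f x → ∀ χ : (Fin k → ℤ) → Fin ρ,
    x ^ (7 / 8 : ℝ) ≤ (Set.ncard {n : ℕ | Cluster c C x H m n ∧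
      ∃ col, ∀ I : Fin k → Finset (Fin m), (∀ l, (I l).Nonempty) →
        (∀ l l', l < l' → ∀ i ∈ I l, ∀ j ∈ I l', i < j) →
        χ (fun l => ∑ i ∈ I l, d (n + i)) = col} : ℝ) := by
  obtain ⟨c, C, hc, -, h⟩ := Pool.Agent.Y898.MTC.mt_gaps k m ρ
  obtain ⟨x₀, hx₀⟩ := Filter.eventually_atTop.1 h
  refine ⟨c, C, hc, x₀, fun x hx H hH hHc χ => (hx₀ x hx H hH hHc χ).trans ?_⟩
  rw [Nat.cast_le]
  refine Set.ncard_le_ncard ?_ (finite_of (k := m) fun n hn => hn.1.2.1)
  intro n hn
  exact cluster_of hn

end Pool.Agent.Results.MP_ff81b6_nt.MillikenTaylorForGaps
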