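import Pool.Agent.Y961.JR.GenMain

set_option autoImplicit false

/-!
# Record prime gaps around a number and around several of its powers, at the same time

Let `P₁, …, P_r` be generalised polynomials, that is, finite sums `P_j(t) = ∑ x ∈ F_j, a_j(x) t ^ x`
with real exponents `x` and real coefficients, whose leading exponents `c_j = max F_j` are positive,
distinct and not integers, and whose leading coefficients are positive (for instance
`P_j(t) = α_j t ^ (c_j) + ` any polynomial of degree less than `c_j`). There are `κ > 0` and `δ > 0` such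
that for all large `M` some integer `n` in `(M, M + M ^ (1 - δ)]` has no prime within
`κ log M (log₂ M)² log₄ M / (log₃ M)²` of any of the `r + 1` numbers `n, P₁(n), …, P_r(n)`. The second
part is the special case of the powers `n, α₁ n ^ (c₁), …, α_r n ^ (c_r)`.

Proof (`Pool.Agent.Y961.JR`). A joint form of the covering sieve of the starting library: the colour
of a vector of integers at the prime `p` is the pair (coordinate, shift) if exactly one shifted
coordinate is divisible by `p`. The distribution of the vectors of integer parts in residue classes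
follows from exponential sums over progressions, with phases `∑ h_j P_j(n) / q`, which are bounded,
uniformly in `h` and `q`, by van der Corput differencing and the inequality of Kusmin and Landau
(`Pool.Agent.TH915.PW.exp_bound`, helper915).
-/

namespace Pool.Agent.Results.MP_ff81b6_nt.SeveralGeneralisedPolynomials

open Finset

/-- the size of the largest known prime gaps -/
noncomputable def f (M : ℝ) : ℝ :=
  Real.log M * (Real.log (Real.log M)) ^ 2 * Real.log (Real.log (Real.log (Real.log M))) /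
    (Real.log (Real.log (Real.log M))) ^ 2

/-- no prime is at distance at most `d` from `x` -/
def PrimeFreeAround (x d : ℝ) : Prop := ∀ q : ℕ, q.Prime → d < |(q : ℝ) - x|

theorem result :
    (∀ (r : ℕ) (F : Fin r → Finset ℝ) (a : Fin r → ℝ → ℝ) (c : Fin r → ℝ), 1 ≤ r →
      (∀ j, c j ∈ F j ∧ ∀ x ∈ F j, x ≤ c j) → (∀ j, 0 < a j (c j)) → (∀ j, 0 < c j) →
      (∀ j, ∀ m : ℕ, c j ≠ m) → Function.Injective c →
      ∃ κ : ℝ, 0 < κ ∧ ∃ δ : ℝ, 0 < δ ∧ ∃ M₀ : ℝ, ∀ M : ℝ, M₀ ≤ M →
      ∃ n : ℕ, M < n ∧ (n : ℝ) ≤ M + M ^ (1 - δ) ∧ PrimeFreeAround n (κ * f M) ∧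
        ∀ j, PrimeFreeAround (∑ x ∈ F j, a j x * (n : ℝ) ^ x) (κ * f M)) ∧
    (∀ (r : ℕ) (α c : Fin r → ℝ), 1 ≤ r → (∀ j, 0 < α j) → (∀ j, 0 < c j) →
      (∀ j, ∀ m : ℕ, c j ≠ m) → Function.Injective c →
      ∃ κ : ℝ, 0 < κ ∧ ∃ δ : ℝ, 0 < δ ∧ ∃ M₀ : ℝ, ∀ M : ℝ, M₀ ≤ M →
      ∃ n : ℕ, M < n ∧ (n : ℝ) ≤ M + M ^ (1 - δ) ∧ PrimeFreeAround n (κ * f M) ∧
        ∀ j, PrimeFreeAround (α j * (n : ℝ) ^ c j) (κ * f M)) := by
  refine ⟨fun r F a c hr h1 h2 h3 h4 h5 => Pool.Agent.Y961.JR.genpolys hr
    ⟨fun j => (h1 j).1, fun j => (h1 j).2, h2, h3, h4, h5⟩, ?_⟩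
  intro r α c hr h2 h3 h4 h5
  have h := Pool.Agent.Y961.JR.genpolys (F := fun j => {c j}) (a := fun j _ => α j) (c := c) hr
    ⟨fun j => Finset.mem_singleton_self _, fun j x hx => (Finset.mem_singleton.mp hx).le,
      h2, h3, h4, h5⟩
  simp only [Finset.sum_singleton] at h
  exact h

end Pool.Agent.Results.MP_ff81b6_nt.SeveralGeneralisedPolynomials
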